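import Pool.Agent.helper19.MX.SpecC

/-!
Row mx:EV2: the finite field inside `kk`.
-/

set_option autoImplicit false

namespace MX

open Pool.Agent.helper53.AU AN
open scoped Classical Topology IntermediateField

theorem EV2_prod (K : Type) [Field K] [Fintype K] :
    ∏ a : K, (Polynomial.X - Polynomial.C a) =
      (Polynomial.X ^ Fintype.card K - Polynomial.X : Polynomial K) := by
  have hm : (Polynomial.X ^ Fintype.card K - Polynomial.X : Polynomial K).Monic := by
    apply Polynomial.monic_X_pow_sub
    rw [Polynomial.degree_X]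
    exact_mod_cast Fintype.one_lt_card
  have hr := FiniteField.roots_X_pow_card_sub_X K
  have hd := FiniteField.X_pow_card_sub_X_natDegree_eq K (Fintype.one_lt_card (α := K))
  have h := Polynomial.prod_multiset_X_sub_C_of_monic_of_roots_card_eq hm (by
    rw [hr, hd]
    exact Finset.card_univ)
  rw [hr] at h
  exact h

theorem EV2 (hCH2 : CH2_stmt) : EV2_stmt := by
  intro K _ _ n hK
  obtain ⟨hc, _⟩ := hCH2 K n hK
  let _ : Algebra (ZMod 2) K := ZMod.algebra K 2
  have hfin : Module.Finite (ZMod 2) K := Module.Finite.of_finite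
  have halg : Algebra.IsAlgebraic (ZMod 2) K := Algebra.IsAlgebraic.of_finite (ZMod 2) K
  let j : K →ₐ[ZMod 2] kk := IsAlgClosed.lift
  refine ⟨j.toRingHom, ?_⟩
  intro c hcc
  have h1 : ∏ a : K, (Polynomial.X - Polynomial.C a) = Polynomial.X ^ Fintype.card K - Polynomial.X :=
    EV2_prod K
  have h2 := congrArg (fun q => Polynomial.eval₂ j.toRingHom c q) h1
  simp only [Polynomial.eval₂_finsetProd, Polynomial.eval₂_sub, Polynomial.eval₂_X,
    Polynomial.eval₂_C, Polynomial.eval₂_pow] at h2
  rw [hK, hcc, sub_self, Finset.prod_eq_zero_iff] at h2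
  obtain ⟨a, _, ha⟩ := h2
  exact ⟨a, (sub_eq_zero.1 ha).symm⟩

end MX
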